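import Pool.Agent.H34.TAM.Stmts2

/-!
# Board aut, row BND
-/

set_option autoImplicit false

noncomputable section

open scoped TensorProduct

namespace Pool.AUT

open Pool.CGR Pool.CGS Pool.TAM

theorem bnd_thm : BNDStmt := by
  intro hN m A _ τ hτ y z
  have h2 := two_thm A τ hτ
  have hn0 : ∀ a : A, 0 ≤ n2 τ a := fun a => Real.sqrt_nonneg _
  have hz0 : n2 τ (0 : A) = 0 := by simp [n2]
  induction z using FreeAlgebra.induction with
  | grade0 r =>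
    refine ⟨0, le_rfl, ?_⟩
    intro i q δ hδ _
    have h1 : δ 1 = 0 := by
      have := hδ 1 1
      rw [mul_one, mul_one, one_mul] at this
      exact left_eq_add.1 this
    have h3 : δ (algebraMap ℂ (FreeAlgebra ℂ (Fin m)) r) = 0 := by
      rw [Algebra.algebraMap_eq_smul_one, map_smul, h1, smul_zero]
    rw [h3, map_zero, hz0, zero_mul]
  | grade1 k =>
    refine ⟨1, zero_le_one, ?_⟩
    intro i q δ _ hk
    rw [hk k]
    split_ifs with h
    · rw [one_mul]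
    · rw [map_zero, hz0, one_mul]
      exact hn0 _
  | mul a b ha hb =>
    obtain ⟨Ca, hCa, ha⟩ := ha
    obtain ⟨Cb, hCb, hb⟩ := hb
    refine ⟨Ca * ‖FreeAlgebra.lift ℂ y b‖ + ‖FreeAlgebra.lift ℂ y a‖ * Cb, by positivity, ?_⟩
    intro i q δ hδ hk
    rw [hδ a b, map_add, map_mul, map_mul]
    have e1 := ha i q δ hδ hk
    have e2 := hb i q δ hδ hk
    have e3 := (hN A τ hτ (FreeAlgebra.lift ℂ y (δ a)) (FreeAlgebra.lift ℂ y b)).2
    have e4 := (hN A τ hτ (FreeAlgebra.lift ℂ y a) (FreeAlgebra.lift ℂ y (δ b))).1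
    have e5 : n2 τ (FreeAlgebra.lift ℂ y (δ a)) * ‖FreeAlgebra.lift ℂ y b‖ ≤
        Ca * n2 τ (FreeAlgebra.lift ℂ y q) * ‖FreeAlgebra.lift ℂ y b‖ :=
      mul_le_mul_of_nonneg_right e1 (norm_nonneg _)
    have e6 : ‖FreeAlgebra.lift ℂ y a‖ * n2 τ (FreeAlgebra.lift ℂ y (δ b)) ≤
        ‖FreeAlgebra.lift ℂ y a‖ * (Cb * n2 τ (FreeAlgebra.lift ℂ y q)) :=
      mul_le_mul_of_nonneg_left e2 (norm_nonneg _)
    have e7 := h2.2.1 (FreeAlgebra.lift ℂ y (δ a) * FreeAlgebra.lift ℂ y b)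
      (FreeAlgebra.lift ℂ y a * FreeAlgebra.lift ℂ y (δ b))
    have e8 : (Ca * ‖FreeAlgebra.lift ℂ y b‖ + ‖FreeAlgebra.lift ℂ y a‖ * Cb) *
        n2 τ (FreeAlgebra.lift ℂ y q) = Ca * n2 τ (FreeAlgebra.lift ℂ y q) *
        ‖FreeAlgebra.lift ℂ y b‖ + ‖FreeAlgebra.lift ℂ y a‖ *
        (Cb * n2 τ (FreeAlgebra.lift ℂ y q)) := by ring
    rw [e8]
    linarith
  | add a b ha hb =>
    obtain ⟨Ca, hCa, ha⟩ := ha
    obtain ⟨Cb, hCb, hb⟩ := hb
    refine ⟨Ca + Cb, by positivity, ?_⟩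
    intro i q δ hδ hk
    rw [map_add, map_add]
    have e1 := ha i q δ hδ hk
    have e2 := hb i q δ hδ hk
    have e7 := h2.2.1 (FreeAlgebra.lift ℂ y (δ a)) (FreeAlgebra.lift ℂ y (δ b))
    rw [add_mul]
    linarith

end Pool.AUT
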